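import Pool.Agent.Helper96.LC.Stmts

/-!
# LC, row STEER: steering with digits `|s| ≤ q`
Copy of `Pool/Agent/Helper44/Lag/Steer.lean` (helper44) with the kernel
`KK ((φ + j) / q) * FF q ((φ + j) / q)`.
-/

set_option linter.all false

namespace Pool.Agent.Helper40.LCS
open Finset Pool.Agent.Helper44.Lag Pool.Agent.Helper96.LC

/-- the weights -/
noncomputable def WW (q : ℕ) (φ : ℝ) (j : ℕ) : ℝ := KK ((φ + j) / q) * FF q ((φ + j) / q)

lemma WW_nonneg (q : ℕ) (φ : ℝ) (j : ℕ) : 0 ≤ WW q φ j := mul_nonneg (KK_nonneg _) (FF_nonneg _ _)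

lemma KK_add_one (θ : ℝ) : KK (θ + 1) = KK θ := by
  unfold KK; rw [show 2 * Real.pi * (θ + 1) = 2 * Real.pi * θ + 2 * Real.pi by ring, Real.cos_add_two_pi]

variable (p q : ℕ)

noncomputable def BI (i : ℤ) : (ℤ → ℂ) →ₗ[ℂ] (ℤ → ℂ) where
  toFun h := fun u => ∑ a ∈ range q, ∑ b ∈ range q,
    if (q : ℤ) ∣ (p * u + a - b + i) then (1 / (q:ℂ)) * h ((p * u + a - b + i) / (q:ℤ)) else 0
  map_add' f g := by
    funext u; simp only [Pi.add_apply]
    rw [← sum_add_distrib]; refine sum_congr rfl fun a _ => ?_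
    rw [← sum_add_distrib]; refine sum_congr rfl fun b _ => ?_
    split_ifs <;> ring
  map_smul' c f := by
    funext u; simp only [Pi.smul_apply, smul_eq_mul, RingHom.id_apply]
    rw [mul_sum]; refine sum_congr rfl fun a _ => ?_
    rw [mul_sum]; refine sum_congr rfl fun b _ => ?_
    split_ifs <;> ring

noncomputable def TI : (ℤ → ℂ) →ₗ[ℂ] (ℤ → ℂ) :=
  (1 / 4 : ℂ) • ((2 : ℂ) • BI p q 0 + BI p q 1 + BI p q (-1))

lemma BI_ch (hq : 0 < q) (i : ℤ) (φ : ℝ) :
    BI p q i (ch φ) = ∑ j ∈ range q,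
      (((FF q ((φ + j) / q) : ℝ) : ℂ) * ee (((φ + j) / q) * i)) • ch (p * (φ + j) / q) := by
  have hq0 : (q : ℝ) ≠ 0 := by positivity
  have hqc : (q : ℂ) ≠ 0 := by exact_mod_cast hq.ne'
  funext u
  rw [Finset.sum_apply]
  show (∑ a ∈ range q, ∑ b ∈ range q,
    if (q : ℤ) ∣ (p * u + a - b + i) then (1 / (q:ℂ)) * ee (φ * (((p * u + a - b + i) / (q:ℤ) : ℤ) : ℝ)) else 0) =
    ∑ j ∈ range q, (((FF q ((φ + j) / q) : ℝ) : ℂ) * ee (((φ + j) / q) * i)) * ee ((p * (φ + j) / q) * u)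
  have h1 : ∀ a b : ℕ, (if (q : ℤ) ∣ (p * u + a - b + i) then (1 / (q:ℂ)) * ee (φ * (((p * u + a - b + i) / (q:ℤ) : ℤ) : ℝ)) else 0)
      = ∑ j ∈ range q, ee (((a:ℝ) - b) * ((φ + j) / q)) / (q:ℂ)^2 * (ee (((φ + j) / q) * i) * ee ((p * (φ + j) / q) * u)) := by
    intro a b
    have h2 := sum_ee q hq φ (p * u + a - b + i)
    have h3 : ∑ j ∈ range q, ee (((a:ℝ) - b) * ((φ + j) / q)) / (q:ℂ)^2 * (ee (((φ + j) / q) * i) * ee ((p * (φ + j) / q) * u))
        = (∑ j ∈ range q, ee ((φ + j) * (((p * u + a - b + i : ℤ) : ℝ) / q))) / (q:ℂ)^2 := by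
      rw [sum_div]; refine sum_congr rfl fun j _ => ?_
      rw [div_mul_eq_mul_div, ← ee_add, ← ee_add]; congr 2; push_cast; field_simp; ring
    rw [h3, h2]
    split_ifs with h
    · field_simp
    · simp
  simp_rw [h1]
  have h4 : ∀ a ∈ range q, (∑ b ∈ range q, ∑ j ∈ range q, ee (((a:ℝ) - b) * ((φ + j) / q)) / (q:ℂ)^2 * (ee (((φ + j) / q) * i) * ee ((p * (φ + j) / q) * u)))
     = ∑ j ∈ range q, ∑ b ∈ range q, ee (((a:ℝ) - b) * ((φ + j) / q)) / (q:ℂ)^2 * (ee (((φ + j) / q) * i) * ee ((p * (φ + j) / q) * u)) := fun a _ => sum_comm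
  rw [sum_congr rfl h4, sum_comm]
  refine sum_congr rfl fun j _ => ?_
  rw [FF_prod q hq, sum_div, mul_assoc, sum_mul]
  refine sum_congr rfl fun a _ => ?_
  rw [sum_div, sum_mul]

lemma KK_ee (θ : ℝ) : ((KK θ : ℝ) : ℂ) = (2 + ee θ + ee (-θ)) / 4 := by
  have h1 : ee θ + (starRingEnd ℂ) (ee θ) = ((2 * Real.cos (2 * Real.pi * θ) : ℝ) : ℂ) := by
    rw [Complex.add_conj, ee_re]
  rw [ee_neg, add_assoc, h1]
  unfold KK; push_cast; ring

lemma TI_ch (hq : 0 < q) (φ : ℝ) :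
    TI p q (ch φ) = ∑ j ∈ range q, ((WW q φ j : ℝ) : ℂ) • ch (p * (φ + j) / q) := by
  unfold TI
  rw [LinearMap.smul_apply, LinearMap.add_apply, LinearMap.add_apply, LinearMap.smul_apply,
    BI_ch p q hq, BI_ch p q hq, BI_ch p q hq, smul_sum, ← sum_add_distrib, ← sum_add_distrib, smul_sum]
  refine sum_congr rfl fun j _ => ?_
  rw [smul_smul, ← add_smul, ← add_smul, smul_smul]
  congr 1
  unfold WW
  rw [Complex.ofReal_mul, KK_ee]
  have e0 : ee ((φ + j) / q * ((0 : ℤ) : ℝ)) = 1 := by simp [ee_zero]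
  have e1 : ee ((φ + j) / q * ((1 : ℤ) : ℝ)) = ee ((φ + j) / q) := by simp
  have e2 : ee ((φ + j) / q * ((-1 : ℤ) : ℝ)) = ee (-((φ + j) / q)) := by
    congr 1; push_cast; ring
  rw [e0, e1, e2]; ring

lemma BI_zero (hq : 0 < q) (φ : ℝ) : BI 1 q 0 (ch φ) 0 = 1 := by
  show (∑ a ∈ range q, ∑ b ∈ range q,
      if (q : ℤ) ∣ ((1:ℕ) * 0 + a - b + 0) then (1 / (q:ℂ)) * ee (φ * ((((1:ℕ) * 0 + a - b + 0) / (q:ℤ) : ℤ) : ℝ)) else 0) = 1
  have h2 : ∀ a ∈ range q, (∑ b ∈ range q,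
      if (q : ℤ) ∣ ((1:ℕ) * 0 + a - b + 0) then (1 / (q:ℂ)) * ee (φ * ((((1:ℕ) * 0 + a - b + 0) / (q:ℤ) : ℤ) : ℝ)) else 0) = 1 / (q : ℂ) := by
    intro a ha
    rw [sum_eq_single a]
    · simp [ee_zero]
    · intro b hb hab
      rw [if_neg]
      intro hd
      apply hab
      have ha' := mem_range.1 ha
      have hb' := mem_range.1 hb
      obtain ⟨m, hm⟩ := hd
      have h3 : (a : ℤ) - b = q * m := by push_cast at hm; linarith
      have h4 : m = 0 := by
        by_contra hm0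
        rcases lt_or_gt_of_ne hm0 with h5 | h5
        · have : (q : ℤ) * m ≤ -q := by nlinarith
          omega
        · have : (q : ℤ) * m ≥ q := by nlinarith
          omega
      rw [h4] at h3; omega
    · intro h; exact absurd ha h
  rw [sum_congr rfl h2]
  have hqc : (q : ℂ) ≠ 0 := by exact_mod_cast hq.ne'
  simp [hqc]

lemma BI_one (hq : 0 < q) (φ : ℝ) : BI 1 q 1 (ch φ) 0 = ((q : ℂ) - 1 + ee φ) / q := by
  show (∑ a ∈ range q, ∑ b ∈ range q,
      if (q : ℤ) ∣ ((1:ℕ) * 0 + a - b + 1) then (1 / (q:ℂ)) * ee (φ * ((((1:ℕ) * 0 + a - b + 1) / (q:ℤ) : ℤ) : ℝ)) else 0) = _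
  have hqc : (q : ℂ) ≠ 0 := by exact_mod_cast hq.ne'
  have hqz : (q : ℤ) ≠ 0 := by exact_mod_cast hq.ne'
  have h2 : ∀ a ∈ range q, (∑ b ∈ range q,
      if (q : ℤ) ∣ ((1:ℕ) * 0 + a - b + 1) then (1 / (q:ℂ)) * ee (φ * ((((1:ℕ) * 0 + a - b + 1) / (q:ℤ) : ℤ) : ℝ)) else 0) =
      if a = q - 1 then (1 / (q : ℂ)) * ee φ else 1 / (q : ℂ) := by
    intro a ha
    have ha' := mem_range.1 ha
    split_ifs with hc
    · rw [sum_eq_single 0]
      · have h3 : (((1:ℕ) : ℤ) * 0 + a - ((0:ℕ) : ℤ) + 1) = q := by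
          rw [hc]; push_cast [Nat.cast_sub hq]; omega
        rw [h3, if_pos (dvd_refl _), Int.ediv_self hqz]; simp
      · intro b hb hb0
        rw [if_neg]
        intro hd
        have hb' := mem_range.1 hb
        obtain ⟨m, hm⟩ := hd
        have h3 : (a : ℤ) - b + 1 = q * m := by push_cast at hm; linarith
        have h5 : (a : ℤ) = q - 1 := by omega
        have h6 : (q : ℤ) * m < q := by omega
        have h7 : 0 < (q : ℤ) * m := by omega
        have h8 : m < 1 := by nlinarith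
        have h9 : 0 < m := by
          by_contra hcon
          push Not at hcon
          nlinarith
        omega
      · intro h; exact absurd (mem_range.2 hq) h
    · rw [sum_eq_single (a + 1)]
      · have h3 : (((1:ℕ) : ℤ) * 0 + a - ((a + 1 : ℕ) : ℤ) + 1) = 0 := by push_cast; ring
        rw [h3, if_pos (dvd_zero _)]; simp [ee_zero]
      · intro b hb hb0
        rw [if_neg]
        intro hd
        have hb' := mem_range.1 hb
        obtain ⟨m, hm⟩ := hd
        have h3 : (a : ℤ) - b + 1 = q * m := by push_cast at hm; linarith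
        have h6 : (q : ℤ) * m < q := by omega
        have h7 : -(q : ℤ) < (q : ℤ) * m := by omega
        have h8 : m < 1 := by nlinarith
        have h9 : -1 < m := by nlinarith
        have h10 : m = 0 := by omega
        rw [h10] at h3; omega
      · intro h; exact absurd (mem_range.2 (by omega)) h
  rw [sum_congr rfl h2]
  obtain ⟨k, rfl⟩ : ∃ k, q = k + 1 := ⟨q - 1, by omega⟩
  rw [sum_range_succ]
  have h3 : ∀ a ∈ range k, (if a = k + 1 - 1 then (1 / ((k + 1 : ℕ) : ℂ)) * ee φ else 1 / ((k + 1 : ℕ) : ℂ)) = 1 / ((k + 1 : ℕ) : ℂ) := by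
    intro a ha
    have := mem_range.1 ha
    rw [if_neg (by omega)]
  rw [sum_congr rfl h3, if_pos (by omega)]
  simp only [sum_const, card_range, nsmul_eq_mul]
  field_simp
  push_cast; ring

lemma BI_neg (hq : 0 < q) (φ : ℝ) : BI 1 q (-1) (ch φ) 0 = ((q : ℂ) - 1 + ee (-φ)) / q := by
  show (∑ a ∈ range q, ∑ b ∈ range q,
      if (q : ℤ) ∣ ((1:ℕ) * 0 + a - b + (-1)) then (1 / (q:ℂ)) * ee (φ * ((((1:ℕ) * 0 + a - b + (-1)) / (q:ℤ) : ℤ) : ℝ)) else 0) = _
  have hqc : (q : ℂ) ≠ 0 := by exact_mod_cast hq.ne'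
  have hqz : (q : ℤ) ≠ 0 := by exact_mod_cast hq.ne'
  have h2 : ∀ a ∈ range q, (∑ b ∈ range q,
      if (q : ℤ) ∣ ((1:ℕ) * 0 + a - b + (-1)) then (1 / (q:ℂ)) * ee (φ * ((((1:ℕ) * 0 + a - b + (-1)) / (q:ℤ) : ℤ) : ℝ)) else 0) =
      if a = 0 then (1 / (q : ℂ)) * ee (-φ) else 1 / (q : ℂ) := by
    intro a ha
    have ha' := mem_range.1 ha
    split_ifs with hc
    · rw [sum_eq_single (q - 1)]
      · have h3 : (((1:ℕ) : ℤ) * 0 + a - ((q - 1:ℕ) : ℤ) + (-1)) = -(q : ℤ) := by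
          rw [hc]; push_cast [Nat.cast_sub hq]; omega
        rw [h3, if_pos ((dvd_neg).2 (dvd_refl _)), Int.neg_ediv_of_dvd (dvd_refl _), Int.ediv_self hqz]
        congr 2; push_cast; ring
      · intro b hb hb0
        rw [if_neg]
        intro hd
        have hb' := mem_range.1 hb
        obtain ⟨m, hm⟩ := hd
        have h3 : (a : ℤ) - b - 1 = q * m := by push_cast at hm; linarith
        have h6 : (q : ℤ) * m < 0 := by omega
        have h7 : -(q : ℤ) < (q : ℤ) * m := by omega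
        have h8 : m < 0 := by
          by_contra hcon
          push Not at hcon
          nlinarith
        have h9 : -1 < m := by nlinarith
        omega
      · intro h; exact absurd (mem_range.2 (by omega)) h
    · rw [sum_eq_single (a - 1)]
      · have h3 : (((1:ℕ) : ℤ) * 0 + a - ((a - 1 : ℕ) : ℤ) + (-1)) = 0 := by omega
        rw [h3, if_pos (dvd_zero _)]; simp [ee_zero]
      · intro b hb hb0
        rw [if_neg]
        intro hd
        have hb' := mem_range.1 hb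
        obtain ⟨m, hm⟩ := hd
        have h3 : (a : ℤ) - b - 1 = q * m := by push_cast at hm; linarith
        have h6 : (q : ℤ) * m < q := by omega
        have h7 : -(q : ℤ) < (q : ℤ) * m := by omega
        have h8 : m < 1 := by nlinarith
        have h9 : -1 < m := by nlinarith
        have h10 : m = 0 := by omega
        rw [h10] at h3; omega
      · intro h; exact absurd (mem_range.2 (by omega)) h
  rw [sum_congr rfl h2]
  obtain ⟨k, rfl⟩ : ∃ k, q = k + 1 := ⟨q - 1, by omega⟩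
  rw [sum_range_succ']
  have h3 : ∀ a ∈ range k, (if a + 1 = 0 then (1 / ((k + 1 : ℕ) : ℂ)) * ee (-φ) else 1 / ((k + 1 : ℕ) : ℂ)) = 1 / ((k + 1 : ℕ) : ℂ) := by
    intro a ha
    rw [if_neg (by omega)]
  rw [sum_congr rfl h3, if_pos rfl]
  simp only [sum_const, card_range, nsmul_eq_mul]
  field_simp
  push_cast; ring

lemma WW_sum (hq : 0 < q) (φ : ℝ) : ∑ j ∈ range q, WW q φ j = 1 - (1 - KK φ) / q := by
  have h := congrFun (TI_ch 1 q hq φ) 0
  rw [Finset.sum_apply] at h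
  have h0 : (∑ j ∈ range q, (((WW q φ j : ℝ) : ℂ) • ch ((1:ℕ) * (φ + j) / q)) 0) = ((∑ j ∈ range q, WW q φ j : ℝ) : ℂ) := by
    push_cast
    refine sum_congr rfl fun j _ => ?_
    simp [ch, ee_zero]
  rw [h0] at h
  have h1 : TI 1 q (ch φ) 0 = (1 / 4 : ℂ) * (2 * BI 1 q 0 (ch φ) 0 + BI 1 q 1 (ch φ) 0 + BI 1 q (-1) (ch φ) 0) := rfl
  rw [h1, BI_zero q hq, BI_one q hq, BI_neg q hq] at h
  have hqc : (q : ℂ) ≠ 0 := by exact_mod_cast hq.ne'
  have h2 : (1 / 4 : ℂ) * (2 * 1 + ((q : ℂ) - 1 + ee φ) / q + ((q : ℂ) - 1 + ee (-φ)) / q) = ((1 - (1 - KK φ) / q : ℝ) : ℂ) := by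
    push_cast
    rw [KK_ee]; field_simp; ring
  rw [h2] at h
  exact_mod_cast h.symm

lemma WW_sum_le (hq : 0 < q) (φ : ℝ) : ∑ j ∈ range q, WW q φ j ≤ 1 := by
  rw [WW_sum q hq]
  have := KK_le φ
  have h : 0 ≤ (1 - KK φ) / q := by
    apply div_nonneg (by linarith) (by positivity)
  linarith

/-- majorant of the powers of TI on characters -/
noncomputable def E2 : ℕ → ℝ → ℝ
  | 0, _ => 1
  | (k+1), φ => ∑ j ∈ range q, WW q φ j * E2 k (p * (φ + j) / q)

lemma E2_nonneg (k : ℕ) : ∀ φ, 0 ≤ E2 p q k φ := by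
  induction k with
  | zero => intro φ; simp [E2]
  | succ k ih =>
    intro φ; simp only [E2]
    exact sum_nonneg fun j _ => mul_nonneg (WW_nonneg _ _ _) (ih _)

lemma E2_succ_le (hq : 0 < q) (k : ℕ) : ∀ φ, E2 p q (k+1) φ ≤ E2 p q k φ := by
  induction k with
  | zero =>
    intro φ
    simp only [E2, mul_one]
    exact WW_sum_le q hq φ
  | succ k ih =>
    intro φ
    rw [E2, E2]
    exact sum_le_sum fun j _ => mul_le_mul_of_nonneg_left (ih _) (WW_nonneg _ _ _)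

lemma TI_pow_bound (hq : 0 < q) (k : ℕ) : ∀ (φ : ℝ) (u : ℤ), ‖((TI p q) ^ k) (ch φ) u‖ ≤ E2 p q k φ := by
  induction k with
  | zero => intro φ u; simp [E2, ch, norm_ee]
  | succ k ih =>
    intro φ u
    rw [pow_succ, Module.End.mul_apply, TI_ch p q hq, map_sum, Finset.sum_apply, E2]
    refine (norm_sum_le _ _).trans (sum_le_sum fun j _ => ?_)
    rw [map_smul, Pi.smul_apply, norm_smul, Complex.norm_real, Real.norm_of_nonneg (WW_nonneg _ _ _)]
    exact mul_le_mul_of_nonneg_left (ih _ _) (WW_nonneg _ _ _)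

/-- periodicity -/
lemma E2_per (hq : 0 < q) (k : ℕ) : ∀ φ, E2 p q k (φ + 1) = E2 p q k φ := by
  have hq0 : (q : ℝ) ≠ 0 := by positivity
  induction k with
  | zero => intro φ; simp [E2]
  | succ k ih =>
    intro φ
    have hnat : ∀ (n : ℕ) x, E2 p q k (x + n) = E2 p q k x := by
      intro n; induction n with
      | zero => intro x; simp
      | succ n ihn => intro x; rw [show x + ((n+1 : ℕ) : ℝ) = (x + n) + 1 by push_cast; ring, ih, ihn]
    rw [E2, E2]
    set g : ℕ → ℝ := fun j => WW q φ j * E2 p q k (p * (φ + j) / q) with hg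
    have h1 : ∀ j ∈ range q, WW q (φ + 1) j * E2 p q k (p * (φ + 1 + j) / q) = g (j + 1) := by
      intro j _; simp only [hg, WW]; push_cast
      rw [show φ + 1 + (j:ℝ) = φ + (j + 1) by ring]
    rw [sum_congr rfl h1]
    have h2 : g q = g 0 := by
      simp only [hg, WW]
      rw [show (φ + (q:ℝ)) / q = (φ + ((0:ℕ):ℝ)) / q + 1 by field_simp; simp, FF_add_one, KK_add_one,
        show (p:ℝ) * (φ + q) / q = p * (φ + ((0:ℕ):ℝ)) / q + (p : ℕ) by field_simp; simp, hnat]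
    have h3 := sum_range_succ g q
    have h4 := sum_range_succ' g q
    linarith

lemma E2_per_int (hq : 0 < q) (k : ℕ) (n : ℤ) (φ : ℝ) : E2 p q k (φ + n) = E2 p q k φ := by
  have h : Function.Periodic (E2 p q k) 1 := E2_per p q hq k
  have := h.int_mul n φ
  simpa using this

/-- the limit -/
noncomputable def L2 (φ : ℝ) : ℝ := ⨅ k, E2 p q k φ

lemma L2_tendsto (hq : 0 < q) (φ : ℝ) : Filter.Tendsto (fun k => E2 p q k φ) Filter.atTop (nhds (L2 p q φ)) := by
  apply tendsto_atTop_ciInf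
  · exact antitone_nat_of_succ_le fun k => E2_succ_le p q hq k φ
  · exact ⟨0, by rintro _ ⟨k, rfl⟩; exact E2_nonneg p q k φ⟩

lemma L2_nonneg (φ : ℝ) : 0 ≤ L2 p q φ := by
  unfold L2; exact Real.iInf_nonneg fun k => E2_nonneg p q k φ

lemma L2_le_one (hq : 0 < q) (φ : ℝ) : L2 p q φ ≤ 1 := by
  have : L2 p q φ ≤ E2 p q 0 φ := ciInf_le ⟨0, by rintro _ ⟨k, rfl⟩; exact E2_nonneg p q k φ⟩ 0
  simpa [E2] using this

lemma L2_rec (hq : 0 < q) (φ : ℝ) :
    L2 p q φ = ∑ j ∈ range q, WW q φ j * L2 p q (p * (φ + j) / q) := by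
  have h1 := (L2_tendsto p q hq φ).comp (Filter.tendsto_add_atTop_nat 1)
  have h2 : Filter.Tendsto (fun k => ∑ j ∈ range q, WW q φ j * E2 p q k (p * (φ + j) / q)) Filter.atTop
      (nhds (∑ j ∈ range q, WW q φ j * L2 p q (p * (φ + j) / q))) :=
    tendsto_finset_sum _ fun j _ => (L2_tendsto p q hq _).const_mul _
  exact tendsto_nhds_unique h1 h2

lemma L2_per_int (hq : 0 < q) (n : ℤ) (φ : ℝ) : L2 p q (φ + n) = L2 p q φ := by
  unfold L2; congr 1; funext k; exact E2_per_int p q hq k n φ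

lemma WW_zero_lower (hq : 0 < q) (ψ : ℝ) : 1 - 50 * ψ ^ 2 ≤ WW q ψ 0 := by
  have hq1 : (1 : ℝ) ≤ q := by exact_mod_cast hq
  have h0 : WW q ψ 0 = KK (ψ / q) * FF q (ψ / q) := by unfold WW; simp
  rw [h0]
  have h1 := FF_zero_lower q hq ψ
  have h2 : 1 - 10 * ψ ^ 2 ≤ KK (ψ / q) := by
    unfold KK
    have h3 := Real.one_sub_sq_div_two_le_cos (x := 2 * Real.pi * (ψ / q))
    have hpi : Real.pi ^ 2 ≤ 10 := by nlinarith [Real.pi_lt_d2, Real.pi_pos]
    have h4 : (ψ / q) ^ 2 ≤ ψ ^ 2 := by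
      rw [div_pow]; exact div_le_self (sq_nonneg _) (one_le_pow₀ hq1)
    have h5 : (2 * Real.pi * (ψ / q)) ^ 2 / 2 = 2 * (Real.pi ^ 2 * (ψ / q) ^ 2) := by ring
    rw [h5] at h3
    have h6 : Real.pi ^ 2 * (ψ / q) ^ 2 ≤ 10 * ψ ^ 2 := mul_le_mul hpi h4 (sq_nonneg _) (by norm_num)
    linarith
  have h3 : 0 ≤ ψ ^ 2 := sq_nonneg ψ
  by_cases h4 : 1 ≤ 40 * ψ ^ 2
  · have := mul_nonneg (KK_nonneg (ψ / q)) (FF_nonneg q (ψ / q)); linarith
  push Not at h4
  have h5 : (1 - 10 * ψ ^ 2) * (1 - 40 * ψ ^ 2) ≤ KK (ψ / q) * FF q (ψ / q) :=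
    mul_le_mul h2 h1 (by linarith) (KK_nonneg _)
  nlinarith

/-- one round of contraction -/
lemma contract (hq : 0 < q) (hcop : Nat.Coprime p q) (hpq : 4 * q ≤ p) :
    ∃ c : ℝ, 0 < c ∧ c ≤ 1 ∧ ∀ m : ℝ, 0 ≤ m → (∀ φ, QR q φ → L2 p q φ ≤ m) → ∀ φ, QR q φ → L2 p q φ ≤ (1 - c) * m := by
  have hq0 : (0 : ℝ) < q := by positivity
  set α : ℝ := (p : ℝ) / q with hα
  have hα4 : 4 ≤ α := by
    rw [hα, le_div_iff₀ hq0]; exact_mod_cast hpq
  have hα0 : 0 < α := by linarith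
  set ρ : ℝ := 1 / (4 * α) with hρ
  have hρ0 : 0 < ρ := by positivity
  have hαρ : α * ρ = 1 / 4 := by rw [hρ]; field_simp
  have hρ1 : ρ ≤ 1 / 16 := by
    rw [hρ, div_le_div_iff₀ (by positivity) (by norm_num)]; linarith
  set c0 : ℝ := (1 - Real.cos (2 * Real.pi * ρ)) / 2 with hc0
  have hpi := Real.pi_pos
  have hc00 : 0 < c0 := by
    have : Real.cos (2 * Real.pi * ρ) < 1 := by
      have h := Real.cos_lt_cos_of_nonneg_of_le_pi (x := 0) (y := 2 * Real.pi * ρ) le_rfl (by nlinarith) (by positivity)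
      simpa using h
    rw [hc0]; linarith
  have hc01 : c0 ≤ 1 := by
    have := Real.neg_one_le_cos (2 * Real.pi * ρ); rw [hc0]; linarith
  have hq1 : (1 : ℝ) ≤ q := by exact_mod_cast hq
  set c' : ℝ := c0 / q with hc'
  have hc'0 : 0 < c' := by rw [hc']; positivity
  have hc'1 : c' ≤ 1 := by rw [hc', div_le_one hq0]; linarith
  refine ⟨c' / 2, by linarith, by linarith, ?_⟩
  intro m hm hL
  -- step A
  have hA : ∀ φ, QR q φ → ρ ≤ |φ| → |φ| ≤ 1 / 2 → L2 p q φ ≤ (1 - c') * m := by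
    intro φ hφ h1 h2
    have hK : KK φ ≤ 1 - c0 := by
      have h3 : Real.cos (2 * Real.pi * |φ|) ≤ Real.cos (2 * Real.pi * ρ) := by
        apply Real.cos_le_cos_of_nonneg_of_le_pi
        · positivity
        · nlinarith
        · nlinarith
      have h4 : Real.cos (2 * Real.pi * |φ|) = Real.cos (2 * Real.pi * φ) := by
        rcases abs_cases φ with ⟨h, _⟩ | ⟨h, _⟩
        · rw [h]
        · rw [h, show 2 * Real.pi * -φ = -(2 * Real.pi * φ) by ring, Real.cos_neg]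
      unfold KK; rw [hc0]; linarith
    rw [L2_rec p q hq]
    calc ∑ j ∈ range q, WW q φ j * L2 p q (p * (φ + j) / q)
        ≤ ∑ j ∈ range q, WW q φ j * m := by
          refine sum_le_sum fun j _ => ?_
          exact mul_le_mul_of_nonneg_left (hL _ (QR_step p q hφ hq hcop j)) (WW_nonneg _ _ _)
      _ = (1 - (1 - KK φ) / q) * m := by
          rw [← sum_mul, WW_sum q hq]
      _ ≤ (1 - c') * m := by
          refine mul_le_mul_of_nonneg_right ?_ hm
          have h7 : c0 / q ≤ (1 - KK φ) / q := div_le_div_of_nonneg_right (by linarith) hq0.le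
          rw [hc']; linarith
  -- step B
  have hB : ∀ φ, QR q φ → WW q φ 0 * (m - L2 p q (α * φ)) ≤ m - L2 p q φ := by
    intro φ hφ
    have h2 : WW q φ 0 * (m - L2 p q (p * (φ + ((0:ℕ):ℝ)) / q)) ≤ ∑ j ∈ range q, WW q φ j * (m - L2 p q (p * (φ + j) / q)) :=
      single_le_sum (f := fun j : ℕ => WW q φ j * (m - L2 p q (p * (φ + j) / q)))
        (fun j _ => mul_nonneg (WW_nonneg _ _ _) (sub_nonneg.2 (hL _ (QR_step p q hφ hq hcop j)))) (mem_range.2 hq)
    have h3 : ∑ j ∈ range q, WW q φ j * (m - L2 p q (p * (φ + j) / q)) = (∑ j ∈ range q, WW q φ j) * m - L2 p q φ := by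
      rw [L2_rec p q hq φ]
      simp_rw [mul_sub]
      rw [sum_sub_distrib, ← sum_mul]
    have h4 : α * φ = p * (φ + ((0:ℕ):ℝ)) / q := by rw [hα]; push_cast; ring
    have h5 := mul_le_mul_of_nonneg_right (WW_sum_le q hq φ) hm
    rw [h4]
    linarith
  -- step C
  set B : ℝ := 100 / (α ^ 2 - 1) with hBdef
  have hden : 0 < α ^ 2 - 1 := by nlinarith
  have hB0 : 0 < B := by positivity
  have hBα : B * (α ^ 2 - 1) = 100 := by rw [hBdef]; field_simp
  have hB1 : B ≤ 20 / 3 := by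
    rw [hBdef, div_le_div_iff₀ hden (by norm_num)]; nlinarith
  have hC : ∀ l : ℕ, ∀ φ, QR q φ → |φ| ≤ 1 / 4 → ρ ≤ α ^ l * |φ| → c' / 2 * m * (1 + B * φ ^ 2) ≤ m - L2 p q φ := by
    have hbase : ∀ φ, QR q φ → |φ| ≤ 1 / 4 → ρ ≤ |φ| → c' / 2 * m * (1 + B * φ ^ 2) ≤ m - L2 p q φ := by
      intro φ hφ h1 h2
      have h3 := hA φ hφ h2 (by linarith)
      have h4 : φ ^ 2 ≤ 1 / 16 := by rw [← sq_abs]; nlinarith [abs_nonneg φ]
      have h5 : B * φ ^ 2 ≤ 1 := by nlinarith [sq_nonneg φ]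
      have h6 : c' / 2 * m * (1 + B * φ ^ 2) ≤ c' / 2 * m * 2 := mul_le_mul_of_nonneg_left (by linarith) (by positivity)
      linarith
    intro l
    induction l with
    | zero => intro φ hφ h1 h2; exact hbase φ hφ h1 (by simpa using h2)
    | succ l ih =>
      intro φ hφ h1 h2
      by_cases h3 : ρ ≤ |φ|
      · exact hbase φ hφ h1 h3
      push Not at h3
      have hQ : QR q (α * φ) := by
        have := QR_step p q hφ hq hcop 0
        rwa [show (p:ℝ) * (φ + ((0:ℕ):ℝ)) / q = α * φ by rw [hα]; push_cast; ring] at this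
      have h4 : |α * φ| ≤ 1 / 4 := by
        rw [abs_mul, abs_of_pos hα0, ← hαρ]; exact mul_le_mul_of_nonneg_left h3.le hα0.le
      have h5 := ih (α * φ) hQ h4 (by
        rw [abs_mul, abs_of_pos hα0]; rw [pow_succ] at h2; linarith [h2, show α ^ l * α * |φ| = α ^ l * (α * |φ|) by ring])
      have h6 := WW_zero_lower q hq φ
      have h7 := hB φ hφ
      have h8 : 0 ≤ c' / 2 * m := by positivity
      have hφ2 : α ^ 2 * φ ^ 2 ≤ 1 / 16 := by
        have : (α * φ) ^ 2 ≤ 1 / 16 := by rw [← sq_abs]; nlinarith [abs_nonneg (α * φ)]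
        nlinarith
      have h9 : 1 + B * φ ^ 2 ≤ (1 - 50 * φ ^ 2) * (1 + B * (α * φ) ^ 2) := by
        have h10 : B * (α ^ 2 * φ ^ 2) ≤ 1 := by
          calc B * (α ^ 2 * φ ^ 2) ≤ B * (1 / 16) := mul_le_mul_of_nonneg_left hφ2 hB0.le
            _ ≤ 1 := by linarith
        have h11 : 0 ≤ φ ^ 2 := sq_nonneg φ
        have h12 : B * α ^ 2 = 100 + B := by linarith
        have h13 : (1 - 50 * φ ^ 2) * (1 + B * (α * φ) ^ 2) = 1 + (B * α ^ 2) * φ ^ 2 - 50 * φ ^ 2 - 50 * φ ^ 2 * (B * (α ^ 2 * φ ^ 2)) := by ring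
        rw [h13, h12]
        have h14 : 50 * φ ^ 2 * (B * (α ^ 2 * φ ^ 2)) ≤ 50 * φ ^ 2 * 1 := mul_le_mul_of_nonneg_left h10 (by positivity)
        linarith
      have h13 : 0 ≤ 1 + B * (α * φ) ^ 2 := by positivity
      have h14 : 0 ≤ m - L2 p q (α * φ) := sub_nonneg.2 (hL _ hQ)
      calc c' / 2 * m * (1 + B * φ ^ 2) ≤ c' / 2 * m * ((1 - 50 * φ ^ 2) * (1 + B * (α * φ) ^ 2)) := mul_le_mul_of_nonneg_left h9 h8
        _ = (1 - 50 * φ ^ 2) * (c' / 2 * m * (1 + B * (α * φ) ^ 2)) := by ring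
        _ ≤ WW q φ 0 * (c' / 2 * m * (1 + B * (α * φ) ^ 2)) := mul_le_mul_of_nonneg_right h6 (by positivity)
        _ ≤ WW q φ 0 * (m - L2 p q (α * φ)) := mul_le_mul_of_nonneg_left h5 (WW_nonneg _ _ _)
        _ ≤ _ := h7
  intro φ hφ
  set n := round φ with hn
  have hψ : QR q (φ + ((-n : ℤ) : ℝ)) := QR_add_int q hφ hq (-n)
  rw [← L2_per_int p q hq (-n) φ]
  set ψ := φ + ((-n : ℤ) : ℝ) with hψd
  have h1 : |ψ| ≤ 1 / 2 := by
    rw [hψd]; push_cast; rw [← sub_eq_add_neg]; exact abs_sub_round φ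
  have h0 : 0 < |ψ| := by
    rw [abs_pos]; intro h; exact hψ.2 0 (by rw [h]; simp)
  by_cases h2 : ρ ≤ |ψ|
  · have := hA ψ hψ h2 h1
    nlinarith
  push Not at h2
  obtain ⟨l, hl⟩ := pow_unbounded_of_one_lt (ρ / |ψ|) (show 1 < α by linarith)
  have h3 := hC l ψ hψ (by linarith) (by rw [div_lt_iff₀ h0] at hl; exact hl.le)
  have h4 : c' / 2 * m * 1 ≤ c' / 2 * m * (1 + B * ψ ^ 2) := mul_le_mul_of_nonneg_left (by nlinarith [sq_nonneg ψ]) (by positivity)
  linarith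

lemma L2_eq_zero (hq : 0 < q) (hcop : Nat.Coprime p q) (hpq : 4 * q ≤ p) {φ : ℝ} (hφ : QR q φ) : L2 p q φ = 0 := by
  obtain ⟨c, hc0, hc1, hc⟩ := contract p q hq hcop hpq
  have h1 : ∀ n : ℕ, ∀ φ, QR q φ → L2 p q φ ≤ (1 - c) ^ n := by
    intro n; induction n with
    | zero => intro φ _; simpa using L2_le_one p q hq φ
    | succ n ih =>
      intro φ hφ
      have := hc ((1 - c) ^ n) (pow_nonneg (by linarith) n) ih φ hφ
      rw [pow_succ]; linarith
  have h2 : Filter.Tendsto (fun n : ℕ => (1 - c) ^ n) Filter.atTop (nhds 0) :=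
    tendsto_pow_atTop_nhds_zero_of_lt_one (by linarith) (by linarith)
  exact le_antisymm (ge_of_tendsto' h2 fun n => h1 n φ hφ) (L2_nonneg _ _ _)

lemma path_of_BI (i : ℤ) (hi : |i| ≤ 1) (hq : 0 < q) (g : ℤ → ℂ) (u : ℤ) (h : BI p q i g u ≠ 0) :
    ∃ w, Stp p q u w ∧ g w ≠ 0 := by
  have h1 : BI p q i g u = ∑ a ∈ range q, ∑ b ∈ range q,
      if (q : ℤ) ∣ (p * u + a - b + i) then (1 / (q:ℂ)) * (g ((p * u + a - b + i) / (q:ℤ))) else 0 := rfl
  rw [h1] at h
  obtain ⟨a, ha, h⟩ := exists_ne_zero_of_sum_ne_zero h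
  obtain ⟨b, hb, h⟩ := exists_ne_zero_of_sum_ne_zero h
  split_ifs at h with hd
  · obtain ⟨w, hw⟩ := hd
    have hq1 : (q : ℤ) ≠ 0 := by exact_mod_cast hq.ne'
    rw [hw, Int.mul_ediv_cancel_left _ hq1] at h
    have ha' := mem_range.1 ha
    have hb' := mem_range.1 hb
    refine ⟨w, ?_, right_ne_zero_of_mul h⟩
    unfold Stp
    have : (q : ℤ) * w - p * u = (a - b) + i := by linarith
    rw [this, abs_le]
    rw [abs_le] at hi
    constructor <;> omega
  · exact absurd rfl h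

lemma path_of_ne (hq : 0 < q) (k : ℕ) : ∀ (h : ℤ → ℂ) (u : ℤ), ((TI p q) ^ k) h u ≠ 0 → ∃ v, Relation.ReflTransGen (Stp p q) u v ∧ h v ≠ 0 := by
  induction k with
  | zero => intro h u hu; exact ⟨u, .refl, by simpa using hu⟩
  | succ k ih =>
    intro h u hu
    rw [pow_succ', Module.End.mul_apply] at hu
    set g := ((TI p q) ^ k) h with hg
    have h1 : TI p q g u = (1 / 4 : ℂ) * (2 * BI p q 0 g u + BI p q 1 g u + BI p q (-1) g u) := rfl
    rw [h1] at hu
    have key : ∀ i : ℤ, |i| ≤ 1 → BI p q i g u ≠ 0 → ∃ v, Relation.ReflTransGen (Stp p q) u v ∧ h v ≠ 0 := by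
      intro i hi hgi
      obtain ⟨w, hw, hw0⟩ := path_of_BI p q i hi hq g u hgi
      obtain ⟨v, hv, hv0⟩ := ih h w hw0
      exact ⟨v, Relation.ReflTransGen.head hw hv, hv0⟩
    by_cases h2 : BI p q 0 g u = 0
    · by_cases h3 : BI p q 1 g u = 0
      · by_cases h4 : BI p q (-1) g u = 0
        · exfalso; apply hu; rw [h2, h3, h4]; simp
        · exact key (-1) (by simp) h4
      · exact key 1 (by simp) h3
    · exact key 0 (by simp) h2

/-- **Steering lemma**: the walk reaches every residue class modulo powers of q. -/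
theorem steer (hq : 0 < q) (hcop : Nat.Coprime p q) (hpq : 4 * q ≤ p) (J : ℕ) (u r : ℤ) :
    ∃ v, Relation.ReflTransGen (Stp p q) u v ∧ v ≡ r [ZMOD (q : ℤ) ^ J] := by
  set Q : ℕ := q ^ J with hQ
  have hQ0 : 0 < Q := by positivity
  have hQr : (Q : ℝ) ≠ 0 := by positivity
  set H : ℤ → ℂ := ∑ b ∈ range Q, ee (-(b * r / Q)) • ch (b / Q) with hH
  have hT : ∀ k, ((TI p q) ^ k) H u = ∑ b ∈ range Q, ee (-(b * r / Q)) * ((TI p q) ^ k) (ch (b / Q)) u := by
    intro k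
    rw [hH, map_sum, Finset.sum_apply]
    refine sum_congr rfl fun b _ => ?_
    rw [map_smul]; rfl
  have h0 : ∀ k, ((TI p q) ^ k) (ch 0) = ch 0 := by
    intro k
    induction k with
    | zero => simp
    | succ k ih =>
      have h1 : TI p q (ch 0) = ch 0 := by
        rw [TI_ch p q hq]
        have hs := WW_sum q hq 0
        have hK0 : KK 0 = 1 := by simp [KK]
        rw [hK0] at hs
        have hF0 : WW q 0 0 = 1 := by
          unfold WW FF
          have : ∀ a ∈ range q, ee (a * ((0 + ((0:ℕ):ℝ)) / q)) = 1 := by intro a _; simp [ee_zero]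
          rw [sum_congr rfl this]
          have hq0 : (q : ℝ) ≠ 0 := by positivity
          simp [hq0, KK]
        have hFj : ∀ j ∈ range q, j ≠ 0 → WW q 0 j = 0 := by
          intro j hj hj0
          have h2 := add_sum_erase (range q) (fun j : ℕ => WW q 0 j) (mem_range.2 hq)
          rw [hs] at h2
          have h3 : ∑ x ∈ (range q).erase 0, WW q 0 x = 0 := by
            simp only [sub_self, zero_div, sub_zero] at h2
            rw [hF0] at h2; linarith
          exact (sum_eq_zero_iff_of_nonneg fun i _ => WW_nonneg q _ _).1 h3 j (mem_erase.2 ⟨hj0, hj⟩)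
        rw [sum_eq_single 0]
        · rw [hF0]; simp
        · intro j hj hj0; rw [hFj j hj hj0]; simp
        · intro h; exact absurd (mem_range.2 hq) h
      rw [pow_succ, Module.End.mul_apply, h1, ih]
  have hlim : Filter.Tendsto (fun k => ∑ b ∈ (range Q).erase 0, E2 p q k (b / Q)) Filter.atTop (nhds 0) := by
    have : Filter.Tendsto (fun k => ∑ b ∈ (range Q).erase 0, E2 p q k (b / Q)) Filter.atTop (nhds (∑ b ∈ (range Q).erase 0, (0:ℝ))) := by
      refine tendsto_finset_sum _ fun b hb => ?_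
      have hb0 : b ≠ 0 := (mem_erase.1 hb).1
      have hbQ : b < Q := mem_range.1 (mem_erase.1 hb).2
      have hQR : QR q ((b:ℝ) / Q) := by
        refine ⟨⟨J, b, by rw [hQ]; push_cast; ring⟩, ?_⟩
        intro n hn
        have h1 : (b : ℝ) = n * Q := by field_simp at hn; linarith
        have h2 : (b : ℤ) = n * Q := by exact_mod_cast h1
        rcases lt_or_ge n 1 with h3 | h3
        · have : (b : ℤ) ≤ 0 := by rw [h2]; nlinarith
          omega
        · have : (Q : ℤ) ≤ b := by rw [h2]; nlinarith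
          omega
      have := L2_tendsto p q hq ((b:ℝ) / Q)
      rwa [L2_eq_zero p q hq hcop hpq hQR] at this
    simpa using this
  obtain ⟨k, hk⟩ := ((tendsto_order.1 hlim).2 1 one_pos).exists
  have hne : ((TI p q) ^ k) H u ≠ 0 := by
    rw [hT]
    rw [← add_sum_erase (range Q) _ (mem_range.2 hQ0)]
    intro hz
    have h1 : ee (-(((0:ℕ):ℝ) * r / Q)) * ((TI p q) ^ k) (ch (((0:ℕ):ℝ) / Q)) u = 1 := by
      have : ((0:ℕ):ℝ) / Q = 0 := by simp
      rw [this, h0]; simp [ch, ee_zero]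
    rw [h1] at hz
    have h2 : ‖∑ b ∈ (range Q).erase 0, ee (-(b * r / Q)) * ((TI p q) ^ k) (ch (b / Q)) u‖ ≤ ∑ b ∈ (range Q).erase 0, E2 p q k (b / Q) := by
      refine (norm_sum_le _ _).trans (sum_le_sum fun b _ => ?_)
      rw [norm_mul, norm_ee, one_mul]
      exact TI_pow_bound p q hq k _ _
    have h3 : ∑ b ∈ (range Q).erase 0, ee (-(b * r / Q)) * ((TI p q) ^ k) (ch (b / Q)) u = -1 := by
      linear_combination hz
    rw [h3] at h2
    simp at h2
    linarith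
  obtain ⟨v, hv, hv0⟩ := path_of_ne p q hq k H u hne
  refine ⟨v, hv, ?_⟩
  have hHv : H v = ∑ j ∈ range Q, ee ((0 + j) * (((v - r : ℤ) : ℝ) / Q)) := by
    rw [hH, Finset.sum_apply]
    refine sum_congr rfl fun b _ => ?_
    show ee (-(b * r / Q)) * ee (b / Q * v) = _
    rw [← ee_add]; congr 1; push_cast; ring
  rw [hHv, sum_ee Q hQ0] at hv0
  split_ifs at hv0 with hd
  · have : (Q : ℤ) = (q : ℤ) ^ J := by rw [hQ]; push_cast; rfl
    rw [← this]
    exact (Int.modEq_iff_dvd.2 hd).symm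
  · exact absurd rfl hv0

theorem st_STEER : ST_STEER := fun p q hq hcop hpq J u r => steer p q hq hcop hpq J u r

end Pool.Agent.Helper40.LCS
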